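import Pool.Agent.V11290.UL.NFam

/-!
# The original form of the conjecture of Birch and Swinnerton-Dyer, for abelian varieties

Let `A` be an abelian variety of dimension `g` over a number field `K`, `r` the rank of `A(K)`.  The
first form of the conjecture was about the products of the numbers `#A(k_v) / q_v^g` over the primes `v`
with `q_v ≤ X`, which should be asymptotic to `C (log X)^r`.  This implies the rank formula
`ord_{s=1} L(A, s) = r`, but it is much stronger, since it also implies the Riemann hypothesis for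
`L(A, s)` (Goldfeld for elliptic curves over `ℚ`).

We find a form of it, in the numbers of points only, that is equivalent to the rank formula.  Let

`S_γ(X) = ∑_v cos(γ log q_v / log X) / Γ(1 + log q_v / log X) * log (#A(k_v) / q_v^g)`.

Let `L(A, s)` have a meromorphic continuation along the real axis to `s = 1`.  Then, with no hypothesis
on the zeros and poles:

* for every angle `γ > π/2`: `ord_{s=1} L(A, s) = r` if and only if `S_γ(X) = r log log X + O(1)`;
* for an angle `0 ≤ γ < π/2` this asymptotic formula holds if and only if the order is `r` and `L(A, s)`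
  has no zeros and poles on the real interval `(1, 3/2]`;
* if the rightmost real zero or pole beyond `1` is at `1 + δ`, then, for `0 ≤ γ < π/2`, the sum
  `S_γ(X)` exceeds `exp (X^y)` infinitely often, in the direction of its sign, for every `y < δ`.

The tools (rotated Mittag-Leffler sums) were developed for elliptic curves by the helpers 187, 189, 125,
349, 371, 376 of an earlier round.
-/

set_option autoImplicit false

namespace Pool.Agent.Results.MP_1d384c_nt.NumericalCriterion

open IsDedekindDomain NumberField Filter Topology Polynomial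

variable {n : ℕ}

/-- The set `V` of homogeneous polynomials over a ring `R` in `n` variables defines a projective
scheme over `R`.  For a field `κ` with `q` elements and a homomorphism `R → κ` this is `(q - 1)`
times the number of the points of `V` with coordinates in `κ`: the number of the nonzero solutions
of the equations. -/
noncomputable def cone {R : Type} [CommRing R] (V : Set (MvPolynomial (Fin n) R)) {κ : Type}
    [CommRing κ] (φ : R →+* κ) : ℕ :=
  Nat.card {u : Fin n → κ // u ≠ 0 ∧ ∀ f ∈ V, MvPolynomial.eval₂ φ u f = 0}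

variable {K : Type} [Field K] [NumberField K]

/-- The norm of a prime, the number of elements of its residue field `k_v`. -/
noncomputable def q (v : HeightOneSpectrum (𝓞 K)) : ℝ := (Ideal.absNorm v.asIdeal : ℝ)

/-- `#A(k_v)`, the number of the points of `A` over the residue field of `v`. -/
noncomputable def points (A : Set (MvPolynomial (Fin n) (𝓞 K))) (v : HeightOneSpectrum (𝓞 K)) : ℝ :=
  cone A (Ideal.Quotient.mk v.asIdeal) / (q v - 1)

/-- Let `A` be an abelian variety of dimension `g` over `K`, with good reduction outside the finite set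
`S` of primes.  The polynomials `P_v` are its local polynomials: for `v ∉ S`, `P_v(z) = ∏ (1 - α_j z)`
with `2g` complex numbers `α_j` of absolute value `√q_v`, and the number of the points of `A` over the
extension of degree `e` of the residue field of `v` is `∏ (1 - α_j ^ e)` (Weil); for `v ∈ S` the polynomial
`P_v` is not zero at the real points `q_v^{-x}`, `x ≥ 1` (its reciprocal roots are of absolute value
at most `√q_v`, by Grothendieck). -/
def IsLocalSystem (A : Set (MvPolynomial (Fin n) (𝓞 K))) (g : ℕ)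
    (S : Finset (HeightOneSpectrum (𝓞 K))) (P : HeightOneSpectrum (𝓞 K) → ℤ[X]) : Prop :=
  (∀ v, v ∉ S → ∃ α : Fin (2 * g) → ℂ, (∀ j, ‖α j‖ = √(q v)) ∧
    (∀ z : ℂ, aeval z (P v) = ∏ j, (1 - α j * z)) ∧
    ∀ (κ : Type) [Field κ] [Finite κ] (φ : 𝓞 K →+* κ) (e : ℕ), RingHom.ker φ = v.asIdeal →
      Nat.card κ = Ideal.absNorm v.asIdeal ^ e →
      (cone A φ : ℂ) = ((q v : ℂ) ^ e - 1) * ∏ j, (1 - α j ^ e)) ∧
  ∀ v ∈ S, ∀ x : ℝ, 1 ≤ x → aeval (q v ^ (-x)) (P v) ≠ 0

/-- `L` is a continuation of the `L`-function `L(A, s) = ∏_v P_v(q_v^{-s})⁻¹` from the half-plane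
`Re s > 3/2` along the real axis to the central point `1`. -/
def IsContinuation (S : Finset (HeightOneSpectrum (𝓞 K))) (P : HeightOneSpectrum (𝓞 K) → ℤ[X])
    (L : ℂ → ℂ) : Prop :=
  (∀ x : ℝ, 1 ≤ x → x ≤ 3 / 2 → MeromorphicAt L (x : ℂ)) ∧
  ∀ s : ℂ, 3 / 2 < s.re → HasProd
    (fun v : {v : HeightOneSpectrum (𝓞 K) // v ∉ S} => (aeval ((q v.1 : ℂ) ^ (-s)) (P v.1))⁻¹)
    (L s * ∏ v ∈ S, aeval ((q v : ℂ) ^ (-s)) (P v))

/-- The term at `v` of the sum `S_γ(X)`. -/
noncomputable def term (A : Set (MvPolynomial (Fin n) (𝓞 K))) (g : ℕ) (γ X : ℝ)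
    (v : HeightOneSpectrum (𝓞 K)) : ℝ :=
  Real.cos (γ * (Real.log (q v) / Real.log X)) / Real.Gamma (1 + Real.log (q v) / Real.log X) *
    Real.log (points A v / q v ^ g)

/-- `S_γ(X) = ∑_{v ∉ S} cos(γ log q_v / log X) / Γ(1 + log q_v / log X) * log (#A(k_v) / q_v^g)`. -/
noncomputable def rotatedSum (A : Set (MvPolynomial (Fin n) (𝓞 K))) (g : ℕ)
    (S : Finset (HeightOneSpectrum (𝓞 K))) (γ X : ℝ) : ℝ :=
  ∑' v : {v : HeightOneSpectrum (𝓞 K) // v ∉ S}, term A g γ X v.1

/-- The asymptotic formula `S_γ(X) = r log log X + O(1)`. -/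
def Law (A : Set (MvPolynomial (Fin n) (𝓞 K))) (g : ℕ) (S : Finset (HeightOneSpectrum (𝓞 K)))
    (γ : ℝ) (r : ℤ) : Prop :=
  ∃ C X₀ : ℝ, ∀ X ≥ X₀, |rotatedSum A g S γ X - r * Real.log (Real.log X)| ≤ C

/-- **The rank formula in terms of the numbers of points, for abelian varieties.** -/
theorem result (A : Set (MvPolynomial (Fin n) (𝓞 K))) (g : ℕ)
    (S : Finset (HeightOneSpectrum (𝓞 K))) (P : HeightOneSpectrum (𝓞 K) → ℤ[X])
    (hP : IsLocalSystem A g S P) (L : ℂ → ℂ) (hL : IsContinuation S P L) :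
    (∀ v, v ∉ S → 0 < points A v / q v ^ g) ∧
    (∀ γ X : ℝ, 1 < X →
      Summable fun v : {v : HeightOneSpectrum (𝓞 K) // v ∉ S} => ‖term A g γ X v.1‖) ∧
    (∃ ρ : ℤ, meromorphicOrderAt L 1 = ρ) ∧
    (∀ (r : ℤ) (γ : ℝ), Real.pi / 2 < γ → (meromorphicOrderAt L 1 = r ↔ Law A g S γ r)) ∧
    (∀ (r : ℤ) (γ : ℝ), 0 ≤ γ → γ < Real.pi / 2 → (Law A g S γ r ↔ meromorphicOrderAt L 1 = r ∧
        ∀ x : ℝ, 1 < x → x ≤ 3 / 2 → meromorphicOrderAt L (x : ℂ) = 0)) ∧
    ∀ (x₀ : ℝ) (μ : ℤ), 1 < x₀ → x₀ ≤ 3 / 2 → μ ≠ 0 → meromorphicOrderAt L (x₀ : ℂ) = μ →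
      (∀ x : ℝ, x₀ < x → x ≤ 3 / 2 → meromorphicOrderAt L (x : ℂ) = 0) →
      ∀ γ : ℝ, 0 ≤ γ → γ < Real.pi / 2 → ∀ y : ℝ, y < x₀ - 1 → ∀ D : ℝ,
        ∃ᶠ X : ℝ in atTop,
          Real.exp (X ^ y) + D * Real.log X ≤ (μ.sign : ℝ) * rotatedSum A g S γ X := by
  have hev : ∀ (v : HeightOneSpectrum (𝓞 K)) (z : ℂ),
      aeval z ((P v).map (algebraMap ℤ ℝ)) = aeval z (P v) := fun v z =>
    Polynomial.aeval_map_algebraMap ℝ z (P v)
  have hevr : ∀ (v : HeightOneSpectrum (𝓞 K)) (z : ℝ),
      ((P v).map (algebraMap ℤ ℝ)).eval z = aeval z (P v) := fun v z =>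
    Polynomial.eval_map_algebraMap (P v) z
  have h32 : (1 : ℝ) + 1 / 2 = 3 / 2 := by norm_num
  have h32' : (1 : ℝ) - 1 / 2 = 1 / 2 := by norm_num
  have hq0 : ∀ v : HeightOneSpectrum (𝓞 K), 0 < q v := Pool.Agent.V11290.UL.qK_pos
  have hq2 : ∀ v : HeightOneSpectrum (𝓞 K), 2 ≤ q v := Pool.Agent.V11290.UL.two_le_qK
  have h := Pool.Agent.V11290.UL.nf_main S (1 : ℝ) (2 * g)
    (fun v => (P v).map (algebraMap ℤ ℝ)) (fun v hv => ?_)
    (fun v hv x hx => by
      show ((P v).map (algebraMap ℤ ℝ)).eval _ ≠ 0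
      rw [hevr]
      exact hP.2 v hv x hx) (L := L)
    (fun x h1 h2 => hL.1 x h1 (by linarith))
    (fun s hs => by
      have := hL.2 s (by linarith)
      simp only [hev]
      exact this)
  · -- the local numbers
    have hloc : ∀ v, v ∉ S → ((P v).map (algebraMap ℤ ℝ)).eval (q v ^ (-(1 : ℝ))) =
        points A v / q v ^ g := by
      intro v hv
      obtain ⟨α, h1, h2, h3⟩ := hP.1 v hv
      have hpos : 0 < ((P v).map (algebraMap ℤ ℝ)).eval (q v ^ (-(1 : ℝ))) := h.pos ⟨v, hv⟩
      have hfin : Finite (𝓞 K ⧸ v.asIdeal) := Ideal.finiteQuotientOfFreeOfNeBot _ v.ne_bot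
      have hmax : v.asIdeal.IsMaximal := v.isMaximal
      let _ : Field (𝓞 K ⧸ v.asIdeal) := Ideal.Quotient.field v.asIdeal
      have h4 := h3 (𝓞 K ⧸ v.asIdeal) (Ideal.Quotient.mk v.asIdeal) 1 (Ideal.mk_ker)
        (by rw [pow_one]; rfl)
      have h5 : (points A v : ℂ) = ∏ j, (1 - α j) := by
        have h6 : ((q v : ℂ) - 1) ≠ 0 := by
          have : q v - 1 ≠ 0 := by linarith [hq2 v]
          exact_mod_cast this
        unfold points
        simp only [pow_one] at h4
        push_cast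
        rw [h4]
        field_simp
      have h6 : ((((P v).map (algebraMap ℤ ℝ)).eval (q v ^ (-(1 : ℝ))) : ℝ) : ℂ) =
          ∏ j, (1 - α j * (((q v)⁻¹ : ℝ) : ℂ)) := by
        rw [← h2, ← hev, Real.rpow_neg_one, ← Complex.coe_algebraMap,
          Polynomial.aeval_algebraMap_apply]
        simp
      have h7 : ∀ j, ‖1 - α j * (((q v)⁻¹ : ℝ) : ℂ)‖ = ‖1 - α j‖ / √(q v) := by
        intro j
        have hs : 0 < √(q v) := Real.sqrt_pos.2 (hq0 v)
        have hss : √(q v) * √(q v) = q v := Real.mul_self_sqrt (hq0 v).le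
        have h8 : (starRingEnd ℂ) (α j) * (1 - α j * (((q v)⁻¹ : ℝ) : ℂ)) =
            (starRingEnd ℂ) (α j) - 1 := by
          have h9 : (starRingEnd ℂ) (α j) * α j = ((q v : ℝ) : ℂ) := by
            rw [mul_comm, Complex.mul_conj, Complex.normSq_eq_norm_sq, h1, sq, hss]
          have h10 : ((q v : ℝ) : ℂ) ≠ 0 := by exact_mod_cast (hq0 v).ne'
          rw [mul_sub, ← mul_assoc, h9, mul_one]
          push_cast
          rw [mul_inv_cancel₀ h10]
        have h9 := congrArg norm h8
        rw [norm_mul, RCLike.norm_conj, h1] at h9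
        have h10 : ‖(starRingEnd ℂ) (α j) - 1‖ = ‖1 - α j‖ := by
          rw [← RCLike.norm_conj (1 - α j), map_sub, map_one, norm_sub_rev]
        rw [h10] at h9
        rw [eq_div_iff hs.ne', mul_comm]
        exact h9
      have h8 : |((P v).map (algebraMap ℤ ℝ)).eval (q v ^ (-(1 : ℝ)))| = |points A v| / q v ^ g := by
        have h9 := congrArg norm h6
        rw [Complex.norm_real, Real.norm_eq_abs, norm_prod] at h9
        rw [h9, Finset.prod_congr rfl fun j _ => h7 j, Finset.prod_div_distrib, ← norm_prod, ← h5,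
          Complex.norm_real, Real.norm_eq_abs, Finset.prod_const, Finset.card_univ,
          Fintype.card_fin, pow_mul, Real.sq_sqrt (hq0 v).le]
      have h9 : 0 ≤ points A v := by
        unfold points
        have : 0 ≤ q v - 1 := by linarith [hq2 v]
        positivity
      rw [abs_of_pos hpos, abs_of_nonneg h9] at h8
      exact h8
    have hterm : ∀ (γ X : ℝ) (v : {v : HeightOneSpectrum (𝓞 K) // v ∉ S}), term A g γ X v.1 =
        Real.cos (γ * (Real.log (q v.1) / Real.log X)) /
          Real.Gamma (1 + Real.log (q v.1) / Real.log X) *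
          Real.log (((P v.1).map (algebraMap ℤ ℝ)).eval (q v.1 ^ (-(1 : ℝ)))) := by
      intro γ X v
      rw [hloc v.1 v.2]
      rfl
    have hsum : ∀ γ X : ℝ, rotatedSum A g S γ X = Pool.Agent.V11290.UL.lsum
        (fun v : {v : HeightOneSpectrum (𝓞 K) // v ∉ S} => Pool.Agent.V11290.UL.qK v.1)
        (fun v => ((P v.1).map (algebraMap ℤ ℝ)).eval
          (Pool.Agent.V11290.UL.qK v.1 ^ (-(1 : ℝ)))) γ X := by
      intro γ X
      exact tsum_congr (hterm γ X)
    have hlaw : ∀ (r : ℤ) (γ : ℝ), Law A g S γ r ↔ ∃ C X₀ : ℝ, ∀ X ≥ X₀,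
        |Pool.Agent.V11290.UL.lsum
        (fun v : {v : HeightOneSpectrum (𝓞 K) // v ∉ S} => Pool.Agent.V11290.UL.qK v.1)
        (fun v => ((P v.1).map (algebraMap ℤ ℝ)).eval
          (Pool.Agent.V11290.UL.qK v.1 ^ (-(1 : ℝ)))) γ X - r * Real.log (Real.log X)| ≤ C := by
      intro r γ
      unfold Law
      simp only [hsum]
    refine ⟨fun v hv => ?_, fun γ X hX => ?_, ?_, ?_, ?_, ?_⟩
    · rw [← hloc v hv]
      exact h.pos ⟨v, hv⟩
    · simp only [hterm]
      exact h.summable γ X hX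
    · obtain ⟨ρ, hρ⟩ := WithTop.ne_top_iff_exists.1 h.ne_top
      rw [Complex.ofReal_one] at hρ
      exact ⟨ρ, hρ.symm⟩
    · intro r γ hγ
      rw [hlaw, h.high r γ hγ, Complex.ofReal_one]
    · intro r γ h0 h1
      rw [hlaw, h.low r γ h0 h1, Complex.ofReal_one]
      refine and_congr_right fun _ => ⟨fun h x h2 h3 => h x ⟨h2, by linarith⟩,
        fun h x hx => h x hx.1 (by linarith [hx.2])⟩
    · intro x₀ μ h1 h2 h3 h4 h5 γ h6 h7 y h8 D
      simp only [hsum]
      exact h.growth x₀ μ h1 h3 h4 (fun x h9 h10 => h5 x h9 (by linarith)) (by linarith) γ h6 h7 y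
        h8 D
  · obtain ⟨α, h1, h2, -⟩ := hP.1 v hv
    refine ⟨α, fun j => ?_, fun z => ?_⟩
    · rw [h1 j, h32', Real.sqrt_eq_rpow]
      exact le_rfl
    · rw [hev]
      exact h2 z

end Pool.Agent.Results.MP_1d384c_nt.NumericalCriterion
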