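import Pool.Agent.V1194.SO.Pol

/-!
# The rank conjecture for abelian varieties: numbers of points, sectors and zeros

Let `A` be an abelian variety of dimension `g` over a number field `K` and `S` a set of primes of good reduction
(in the main case all of them; the other Euler factors have no zeros and no poles for `Re s ≥ 1`), and let
`L(s) = ∏_{v ∈ S} P_v(q_v^{-s})⁻¹`, `Re s > 3/2`. In its first form the conjecture of Birch and Swinnerton-Dyer
was about the products of the numbers `#A(k_v) / q_v^g` over the primes with `q_v ≤ X`; this form contains the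
Riemann hypothesis for `L(A, s)` (Goldfeld). Here the sharp cut-off is replaced by the weights
`w_ρ(u) = (1/2πi) ∫ exp(z - u z^{1/ρ}) dz/z`, `ρ > 1`, which decay so fast that the means

`S_ρ(Y) = ∑_{q_v ≤ exp ((log Y)^{ρ'})} w_ρ(log q_v / log Y) log (#A(k_v) / q_v^g)`

do not depend on `ρ' > ρ` up to a bounded error. It is shown for all `ρ' > ρ > 1`:

1. `L(s)` has a holomorphic continuation without zeros to the sector `|arg (s - 1)| < π/(2ρ)` if and only if
   `S_ρ(Y) = O(exp(ε (log Y)^ρ))` for every `ε > 0` (no continuation is supposed).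
2. If `S_ρ(Y) = κ log log Y + O(1)` with a real number `κ`, then `L(s)` has such a continuation, and for every
   analytic continuation `H` of `L(s)` along the real axis to all real `s > 1`, `H` has no zeros there, `|H(s)|`
   is of the exact order `(s - 1)^κ` for `s → 1`, and if `H` is meromorphic at `1`, then `κ` is the order of `H`
   at `1`. In particular `S_ρ(Y) = rank A(K) log log Y + O(1)` implies the rank formula.
3. If `L(s)` has a continuation `G` to `Re s > 1` and to a neighbourhood of `1`, then for every natural number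
   `r` (for example `r = rank A(K)`): the order of `G` at `1` is `r` and `G` has no zeros in the sector if and
   only if `S_ρ(Y) = r log log Y + O(1)`; the order is `r` and `G` has no zeros with `Re s > 1` if and only if
   this holds for all `ρ' > ρ > 1`; and the exponential growth of `S_ρ(Y)` in the scale `exp(θ (log Y)^ρ)` is
   given exactly by the maximum `θ` of `Re (s - 1)^ρ` over the zeros `s` of `G` in the sector.
-/

set_option autoImplicit false

namespace Pool.Agent.Results.MP_1d384c_nt.SectorialMeans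

open Filter Topology Set NumberField IsDedekindDomain

variable {n : ℕ}

/-- The set `V` of homogeneous polynomials over a ring `R` in `n` variables defines a projective
scheme over `R`.  For a field `κ` with `q` elements and a homomorphism `R → κ` this is `(q - 1)`
times the number of the points of `V` with coordinates in `κ`: the number of the nonzero solutions
of the equations. -/
noncomputable def cone {R : Type} [CommRing R] (V : Set (MvPolynomial (Fin n) R)) {κ : Type}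
    [CommRing κ] (φ : R →+* κ) : ℕ :=
  Nat.card {u : Fin n → κ // u ≠ 0 ∧ ∀ f ∈ V, MvPolynomial.eval₂ φ u f = 0}

variable {K : Type} [Field K] [NumberField K]

/-- The norm of a prime, the number of elements of its residue field `k_v`. -/
noncomputable def q (v : HeightOneSpectrum (𝓞 K)) : ℝ := (Ideal.absNorm v.asIdeal : ℝ)

/-- `#A(k_v)`, the number of the points of `A` over the residue field of `v`. -/
noncomputable def points (A : Set (MvPolynomial (Fin n) (𝓞 K))) (v : HeightOneSpectrum (𝓞 K)) : ℝ :=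
  cone A (Ideal.Quotient.mk v.asIdeal) / (q v - 1)

variable {S : Set (HeightOneSpectrum (𝓞 K))}

/-- `A` is an abelian variety of dimension `g` over `K` with good reduction at the primes of `S`, with the
local polynomials `P_v`: `P_v(z) = ∏ (1 - α_j z)` with `2g` complex numbers `α_j` of absolute value `√q_v`, and
the number of the points of `A` over the extension of degree `e` of the residue field of `v` is
`∏ (1 - α_j ^ e)` (Weil). -/
def IsLocalSystem (A : Set (MvPolynomial (Fin n) (𝓞 K))) (g : ℕ) (P : S → Polynomial ℤ) : Prop :=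
  ∀ v : S, ∃ α : Fin (2 * g) → ℂ, (∀ j, ‖α j‖ = √(q v.1)) ∧
    (∀ z : ℂ, Polynomial.aeval z (P v) = ∏ j, (1 - α j * z)) ∧
    ∀ (κ : Type) [Field κ] [Finite κ] (φ : 𝓞 K →+* κ) (e : ℕ), RingHom.ker φ = v.1.asIdeal →
      Nat.card κ = Ideal.absNorm v.1.asIdeal ^ e →
      (cone A φ : ℂ) = ((q v.1 : ℂ) ^ e - 1) * ∏ j, (1 - α j ^ e)

/-- The Euler factor `P_v(q_v^{-s})⁻¹`. -/
noncomputable def factor (P : S → Polynomial ℤ) (v : S) (s : ℂ) : ℂ :=
  (Polynomial.aeval ((q v.1 : ℂ) ^ (-s)) (P v))⁻¹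

/-- The open sector `|arg (s - 1)| < π/(2ρ)` with vertex `1`. -/
def Sector (ρ : ℝ) : Set ℂ := {s | s ≠ 1 ∧ |(s - 1).arg| < Real.pi / (2 * ρ)}

/-- The weight `w_ρ(u) = (1/2πi) ∫_{Re z = 1} exp(z - u z^{1/ρ}) dz/z`. -/
noncomputable def weight (ρ u : ℝ) : ℝ :=
  (2 * Real.pi)⁻¹ * ∫ t : ℝ, (Complex.exp ((1 + t * Complex.I) -
    u * (1 + t * Complex.I) ^ ((ρ⁻¹ : ℝ) : ℂ)) / (1 + t * Complex.I)).re

/-- The mean `S_ρ(Y)`, the sum of `w_ρ(log q_v / log Y) log (#A(k_v) / q_v^g)` over the `v ∈ S` with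
`q_v ≤ exp ((log Y)^{ρ'})`. -/
noncomputable def mean (S : Set (HeightOneSpectrum (𝓞 K))) (A : Set (MvPolynomial (Fin n) (𝓞 K)))
    (g : ℕ) (ρ ρ' Y : ℝ) : ℝ :=
  ∑ᶠ (v : S) (_ : q v.1 ≤ Real.exp (Real.log Y ^ ρ')),
    weight ρ (Real.log (q v.1) / Real.log Y) * Real.log (points A v.1 / q v.1 ^ g)

/-- `S_ρ(Y) = κ log log Y + O(1)`. -/
def Law (S : Set (HeightOneSpectrum (𝓞 K))) (A : Set (MvPolynomial (Fin n) (𝓞 K))) (g : ℕ)
    (ρ ρ' κ : ℝ) : Prop :=
  ∃ C : ℝ, ∀ᶠ Y : ℝ in atTop, |mean S A g ρ ρ' Y - κ * Real.log (Real.log Y)| ≤ C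

/-- `S_ρ(Y) = O(exp((θ + ε) (log Y)^ρ))` for every `ε > 0`. -/
def Growth (S : Set (HeightOneSpectrum (𝓞 K))) (A : Set (MvPolynomial (Fin n) (𝓞 K))) (g : ℕ)
    (ρ ρ' θ : ℝ) : Prop :=
  ∀ ε : ℝ, 0 < ε → ∃ C : ℝ, ∀ᶠ Y : ℝ in atTop,
    |mean S A g ρ ρ' Y| ≤ C * Real.exp ((θ + ε) * Real.log Y ^ ρ)

/-- `L(s)` has a holomorphic continuation without zeros to the sector `|arg (s - 1)| < π/(2ρ)`: there is a
holomorphic function without zeros in the sector, equal to the Euler product for `Re s > 3/2`. -/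
def ZeroFree (P : S → Polynomial ℤ) (ρ : ℝ) : Prop :=
  ∃ G : ℂ → ℂ, (∀ s ∈ Sector ρ, DifferentiableAt ℂ G s ∧ G s ≠ 0) ∧
    ∀ s ∈ Sector ρ, 3 / 2 < s.re → HasProd (fun v : S => factor P v s) (G s)

/-- `G` is a continuation of `L(s)` to `Re s > 1` and to a neighbourhood of `1`. -/
def IsContinuation (P : S → Polynomial ℤ) (G : ℂ → ℂ) : Prop :=
  (∀ s : ℂ, 1 < s.re → DifferentiableAt ℂ G s) ∧ AnalyticAt ℂ G 1 ∧
    ∀ s : ℂ, 3 / 2 < s.re → HasProd (fun v : S => factor P v s) (G s)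

/-- `H` is an analytic continuation of `L(s)` along the real axis: it is analytic at all real `x > 1`
and equal to the Euler product at the real `x > 3/2`. -/
def IsRealContinuation (P : S → Polynomial ℤ) (H : ℂ → ℂ) : Prop :=
  (∀ x : ℝ, 1 < x → AnalyticAt ℂ H x) ∧
    ∀ x : ℝ, 3 / 2 < x → HasProd (fun v : S => factor P v x) (H x)

/-- `|H(s)|` is of the exact order `(s - 1)^κ` for real `s > 1`, `s → 1`. -/
def RadialOrder (H : ℂ → ℂ) (κ : ℝ) : Prop :=
  ∃ A B : ℝ, 0 < A ∧ ∀ᶠ x : ℝ in 𝓝[>] 1,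
    A * (x - 1) ^ κ ≤ ‖H x‖ ∧ ‖H x‖ ≤ B * (x - 1) ^ κ

section tools

theorem q_two (v : HeightOneSpectrum (𝓞 K)) : 2 ≤ q v := Pool.Agent.V11333.EVS.nrm_two v

theorem q_pos (v : HeightOneSpectrum (𝓞 K)) : 0 < q v := by linarith [q_two v]

/-- one factor at the centre -/
theorem norm_one_sub {v : HeightOneSpectrum (𝓞 K)} {α : ℂ} (h1 : ‖α‖ = √(q v)) :
    ‖1 - α * (((q v)⁻¹ : ℝ) : ℂ)‖ = ‖1 - α‖ / √(q v) := by
  have hs : 0 < √(q v) := Real.sqrt_pos.2 (q_pos v)
  have hss : √(q v) * √(q v) = q v := Real.mul_self_sqrt (q_pos v).le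
  have h8 : (starRingEnd ℂ) α * (1 - α * (((q v)⁻¹ : ℝ) : ℂ)) = (starRingEnd ℂ) α - 1 := by
    have h9 : (starRingEnd ℂ) α * α = ((q v : ℝ) : ℂ) := by
      rw [mul_comm, Complex.mul_conj, Complex.normSq_eq_norm_sq, h1, sq, hss]
    have h10 : ((q v : ℝ) : ℂ) ≠ 0 := by exact_mod_cast (q_pos v).ne'
    rw [mul_sub, ← mul_assoc, h9, mul_one]
    push_cast
    rw [mul_inv_cancel₀ h10]
  have h9 := congrArg norm h8
  rw [norm_mul, RCLike.norm_conj, h1] at h9
  have h10 : ‖(starRingEnd ℂ) α - 1‖ = ‖1 - α‖ := by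
    rw [← RCLike.norm_conj (1 - α), map_sub, map_one, norm_sub_rev]
  rw [h10] at h9
  rw [eq_div_iff hs.ne', mul_comm]
  exact h9

/-- the local number -/
theorem local_number {A : Set (MvPolynomial (Fin n) (𝓞 K))} {g : ℕ} {v : HeightOneSpectrum (𝓞 K)}
    {α : Fin (2 * g) → ℂ} (h1 : ∀ j, ‖α j‖ = √(q v))
    (h3 : ∀ (κ : Type) [Field κ] [Finite κ] (φ : 𝓞 K →+* κ) (e : ℕ), RingHom.ker φ = v.asIdeal →
      Nat.card κ = Ideal.absNorm v.asIdeal ^ e →
      (cone A φ : ℂ) = ((q v : ℂ) ^ e - 1) * ∏ j, (1 - α j ^ e)) :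
    ‖∏ j, (1 - α j * (((q v)⁻¹ : ℝ) : ℂ))‖ = points A v / q v ^ g := by
  have hfin : Finite (𝓞 K ⧸ v.asIdeal) := Ideal.finiteQuotientOfFreeOfNeBot _ v.ne_bot
  have hmax : v.asIdeal.IsMaximal := v.isMaximal
  let _ : Field (𝓞 K ⧸ v.asIdeal) := Ideal.Quotient.field v.asIdeal
  have h4 := h3 (𝓞 K ⧸ v.asIdeal) (Ideal.Quotient.mk v.asIdeal) 1 (Ideal.mk_ker)
    (by rw [pow_one]; rfl)
  have h5 : (points A v : ℂ) = ∏ j, (1 - α j) := by
    have h6 : ((q v : ℂ) - 1) ≠ 0 := by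
      have : q v - 1 ≠ 0 := by linarith [q_two v]
      exact_mod_cast this
    unfold points
    simp only [pow_one] at h4
    push_cast
    rw [h4]
    field_simp
  have h9 : 0 ≤ points A v := by
    unfold points
    have : 0 ≤ q v - 1 := by linarith [q_two v]
    positivity
  rw [norm_prod, Finset.prod_congr rfl fun j _ => norm_one_sub (h1 j), Finset.prod_div_distrib,
    ← norm_prod, ← h5, Complex.norm_real, Real.norm_eq_abs, abs_of_nonneg h9, Finset.prod_const,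
    Finset.card_univ, Fintype.card_fin, pow_mul, Real.sq_sqrt (q_pos v).le]

end tools

open Pool.Agent.V1194 in
/-- **Theorem.** Let `A` be an abelian variety of dimension `g` over a number field `K`, `S` a set of primes of
good reduction, `P_v` the local polynomials and `L(s) = ∏_{v ∈ S} P_v(q_v^{-s})⁻¹`. Let `ρ' > ρ > 1`.

(1) `L(s)` has a holomorphic continuation without zeros to the sector `|arg (s - 1)| < π/(2ρ)` if and only if
`S_ρ(Y) = O(exp(ε (log Y)^ρ))` for every `ε > 0`.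
(2) If `S_ρ(Y) = κ log log Y + O(1)`, `κ` real, then `L(s)` has such a continuation, and for every analytic
continuation `H` of `L(s)` along the real axis to all `s > 1`: `H(s) ≠ 0` for real `s > 1`, `|H(s)|` is of the
exact order `(s - 1)^κ`, and if `H` is meromorphic at `1`, then its order at `1` is `κ`.
(3) Let `G` be a continuation of `L(s)` to `Re s > 1` and to a neighbourhood of `1`. For natural `r`:
`ord_{s=1} G = r` and `G` has no zeros in the sector if and only if `S_ρ(Y) = r log log Y + O(1)`;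
`ord_{s=1} G = r` and `G` has no zeros with `Re s > 1` if and only if this holds for all `ρ' > ρ > 1`; and for
`θ ≥ 0` all zeros `s` of `G` in the sector satisfy `Re (s - 1)^ρ ≤ θ` if and only if
`S_ρ(Y) = O(exp((θ + ε)(log Y)^ρ))` for every `ε > 0`. -/
theorem result (A : Set (MvPolynomial (Fin n) (𝓞 K))) (g : ℕ) (P : S → Polynomial ℤ)
    (hP : IsLocalSystem A g P) :
    (∀ ρ ρ' : ℝ, 1 < ρ → ρ < ρ' → (ZeroFree P ρ ↔ Growth S A g ρ ρ' 0)) ∧
    (∀ ρ ρ' κ : ℝ, 1 < ρ → ρ < ρ' → Law S A g ρ ρ' κ → ZeroFree P ρ ∧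
      ∀ H : ℂ → ℂ, IsRealContinuation P H →
        (∀ x : ℝ, 1 < x → H x ≠ 0) ∧ RadialOrder H κ ∧
        ∀ m : ℤ, MeromorphicAt H 1 → meromorphicOrderAt H 1 = m → κ = m) ∧
    (∀ G : ℂ → ℂ, IsContinuation P G →
      (∀ (ρ ρ' : ℝ) (r : ℕ), 1 < ρ → ρ < ρ' →
        ((analyticOrderAt G 1 = r ∧ ∀ s ∈ Sector ρ, G s ≠ 0) ↔ Law S A g ρ ρ' r)) ∧
      (∀ r : ℕ, (analyticOrderAt G 1 = r ∧ ∀ s : ℂ, 1 < s.re → G s ≠ 0) ↔
        ∀ ρ ρ' : ℝ, 1 < ρ → ρ < ρ' → Law S A g ρ ρ' r) ∧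
      (∀ ρ ρ' θ : ℝ, 1 < ρ → ρ < ρ' → 0 ≤ θ →
        ((∀ s ∈ Sector ρ, G s = 0 → ((s - 1) ^ (ρ : ℂ)).re ≤ θ) ↔ Growth S A g ρ ρ' θ))) := by
  choose α h1 h2 h3 using hP
  set a : S → Fin (2 * g) → ℂ := fun v j => α v j * (((q v.1)⁻¹ : ℝ) : ℂ) with ha
  have hp : SO.Pur a := ⟨fun v j => by
      have hs : 0 < √(q v.1) := Real.sqrt_pos.2 (q_pos v.1)
      have hss : √(q v.1) * √(q v.1) = q v.1 := Real.mul_self_sqrt (q_pos v.1).le
      change ‖α v j * (((q v.1)⁻¹ : ℝ) : ℂ)‖ * √(q v.1) = 1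
      rw [norm_mul, h1 v j, Complex.norm_real, Real.norm_eq_abs, abs_of_pos (inv_pos.2 (q_pos v.1)),
        mul_right_comm, hss, mul_inv_cancel₀ (q_pos v.1).ne'], fun v z => by
      have e : ∀ z : ℂ, ∏ j, (1 - a v j * z) =
          Polynomial.aeval ((((q v.1)⁻¹ : ℝ) : ℂ) * z) (P v) := by
        intro z
        rw [h2]
        refine Finset.prod_congr rfl fun j _ => ?_
        rw [ha]
        ring
      rw [e, e, SO.conj_int, map_mul, Complex.conj_ofReal]⟩
  have E := hp.sys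
  have hF : SO.IsProd (fun v : S => Pool.Agent.H921R2.TatePole.nm v.1) (SO.nor a) 1 (factor P) := by
    intro s y hs
    have h4 := hp.isProd (s - 1) y (by
      rw [Complex.sub_re, Complex.one_re]
      linarith)
    have e : (fun v : S => factor P v s) = fun v : S =>
        ∏ j, (1 - a v j * (Pool.Agent.H921R2.TatePole.nm v.1 : ℂ) ^ (-(s - 1)))⁻¹ := by
      funext v
      unfold factor
      rw [h2, ← Finset.prod_inv_distrib]
      refine Finset.prod_congr rfl fun j _ => ?_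
      have hq : (q v.1 : ℂ) ≠ 0 := by exact_mod_cast (q_pos v.1).ne'
      have e1 : (Pool.Agent.H921R2.TatePole.nm v.1 : ℂ) = (q v.1 : ℂ) := by
        unfold q
        rw [Complex.ofReal_natCast]
        rfl
      have e2 : (q v.1 : ℂ) ^ (-(s - 1)) = (q v.1 : ℂ) ^ (-s) * (q v.1 : ℂ) := by
        rw [show -(s - 1) = -s + 1 by ring, Complex.cpow_add _ _ hq, Complex.cpow_one]
      have e3 : (((q v.1)⁻¹ : ℝ) : ℂ) * (q v.1 : ℂ) = 1 := by
        rw [Complex.ofReal_inv, inv_mul_cancel₀ hq]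
      have e4 : a v j * (q v.1 : ℂ) ^ (-(s - 1)) = α v j * (q v.1 : ℂ) ^ (-s) := by
        rw [e2]
        change α v j * (((q v.1)⁻¹ : ℝ) : ℂ) * ((q v.1 : ℂ) ^ (-s) * (q v.1 : ℂ)) = _
        linear_combination (α v j * (q v.1 : ℂ) ^ (-s)) * e3
      rw [e1, e4]
    rw [e, h4, Complex.ofReal_zero, sub_zero, Complex.ofReal_one]
  have hm : ∀ ρ ρ' Y : ℝ, mean S A g ρ ρ' Y = Pool.Agent.TH942.ES.SrE
      (fun v : S => Pool.Agent.H921R2.TatePole.nm v.1) (SO.nor a) ρ ρ' Y := by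
    intro ρ ρ' Y
    unfold mean Pool.Agent.TH942.ES.SrE
    refine finsum_congr fun v => finsum_congr fun _ => ?_
    rw [hp.cv_eq, ← local_number (h1 v) (h3 v)]
    rfl
  have hL : ∀ ρ ρ' κ : ℝ, Law S A g ρ ρ' κ ↔ SO.LawE
      (fun v : S => Pool.Agent.H921R2.TatePole.nm v.1) (SO.nor a) ρ ρ' κ := by
    intro ρ ρ' κ
    unfold Law SO.LawE
    simp only [hm]
  have hG : ∀ ρ ρ' θ : ℝ, Growth S A g ρ ρ' θ ↔ SO.GrowthE
      (fun v : S => Pool.Agent.H921R2.TatePole.nm v.1) (SO.nor a) ρ ρ' θ := by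
    intro ρ ρ' θ
    unfold Growth SO.GrowthE
    simp only [hm]
  have hS : ∀ ρ : ℝ, Sector ρ = SO.Sector 1 ρ := by
    intro ρ
    unfold Sector SO.Sector
    simp only [Complex.ofReal_one]
  have h32 : (1 : ℝ) + 1 / 2 = 3 / 2 := by norm_num
  have hz : ∀ ρ : ℝ, ZeroFree P ρ ↔ SO.ZeroFree 1 (factor P) ρ := by
    intro ρ
    unfold ZeroFree SO.ZeroFree
    rw [hS, h32]
  have hc : ∀ G : ℂ → ℂ, IsContinuation P G → SO.IsCont 1 (factor P) G := by
    rintro G ⟨h4, h5, h6⟩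
    exact ⟨h4, by rwa [Complex.ofReal_one], by rwa [h32]⟩
  have hr : ∀ H : ℂ → ℂ, IsRealContinuation P H → SO.IsRealCont 1 (factor P) H := by
    rintro H ⟨h4, h5⟩
    exact ⟨h4, by rwa [h32]⟩
  refine ⟨fun ρ ρ' hρ hρ' => ?_, fun ρ ρ' κ hρ hρ' hκ => ?_, fun G hGc =>
    ⟨fun ρ ρ' r hρ hρ' => ?_, fun r => ?_, fun ρ ρ' θ hρ hρ' hθ => ?_⟩⟩
  · rw [hG, hz]
    exact SO.gen_zero E hF hρ hρ'
  · obtain ⟨h4, h5⟩ := SO.gen_radial E hF hρ hρ' ((hL ρ ρ' κ).1 hκ)
    refine ⟨(hz ρ).2 h4, fun H hH => ?_⟩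
    obtain ⟨h6, h7, h8⟩ := h5 H (hr H hH)
    exact ⟨h6, h7, by simpa only [Complex.ofReal_one] using h8⟩
  · have h4 := SO.gen_law E hF (hc G hGc) hρ hρ' r
    rw [hL, ← h4, hS, Complex.ofReal_one]
  · have h4 := SO.gen_all E hF (hc G hGc) r
    simp only [hL]
    rw [← h4, Complex.ofReal_one]
  · have h4 := SO.gen_level E hF (hc G hGc) hρ hρ' hθ
    rw [hG, ← h4, hS]
    simp only [Complex.ofReal_one]

end Pool.Agent.Results.MP_1d384c_nt.SectorialMeans
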